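import Mathlib
import Pool.Agent.H.MP_466bd8_al.Cas

set_option autoImplicit false

namespace Pool.Agent.Results.MP_466bd8_al.NoT2

open Pool.Agent.H.MP_466bd8_al

theorem result : ∃ (X D : Type) (_ : TopologicalSpace X) (_ : MeasurableSpace X)
    (_ : TopologicalSpace D) (_ : MeasurableSpace D), Nice X ∧ Nice D ∧
      ∃ C : CAS X D, ∀ C' : CAS X D, C'.π = C.π → ¬ T2 C' :=
  ⟨G, G, _, _, _, _, nice, nice, gcas, fun C' h => notT2 C' h⟩

end Pool.Agent.Results.MP_466bd8_al.NoT2
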